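import Mathlib

/-!
An Eberlein-Grothendieck, hereditarily meta-Lindelöf scattered space of height and cardinality
`ω₁` for which the poset `P` of finite sets is never ccc, whatever the choices of the sets `U x` and
of the point-countable refinement.
-/

namespace Pool.Agent.Results.MP_8301b4_gt.NeverCcc

open Set Ordinal Topology Filter Order

universe u

/-- `X` is (homeomorphic to) a subspace of `C_p(K)` for some compact Hausdorff space `K`. -/
def EberleinGrothendieck (X : Type u) [TopologicalSpace X] : Prop :=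
  ∃ (K : Type u) (_ : TopologicalSpace K), CompactSpace K ∧ T2Space K ∧
    ∃ e : X → (K → ℝ), IsEmbedding e ∧ ∀ x, Continuous (e x)

/-- Every open cover has a point-countable open refinement. -/
def MetaLindelof (X : Type u) [TopologicalSpace X] : Prop :=
  ∀ 𝒪 : Set (Set X), (∀ O ∈ 𝒪, IsOpen O) → ⋃₀ 𝒪 = Set.univ →
    ∃ 𝒱 : Set (Set X), (∀ V ∈ 𝒱, IsOpen V ∧ ∃ O ∈ 𝒪, V ⊆ O) ∧ ⋃₀ 𝒱 = Set.univ ∧
      ∀ x, {V ∈ 𝒱 | x ∈ V}.Countable

/-- Every nonempty subspace has an isolated point. -/
def Scattered (X : Type u) [TopologicalSpace X] : Prop :=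
  ∀ S : Set X, S.Nonempty → ∃ x ∈ S, ∃ U : Set X, IsOpen U ∧ U ∩ S = {x}

/-- `D α = X^(α)` for all ordinals `α`: the sequence of Cantor-Bendixson derivatives of `X`. -/
def IsCBSequence (X : Type u) [TopologicalSpace X] (D : Ordinal.{0} → Set X) : Prop :=
  D 0 = Set.univ ∧
  (∀ α, D (α + 1) = {x ∈ D α | ¬ ∃ U : Set X, IsOpen U ∧ U ∩ D α = {x}}) ∧
  ∀ l, IsSuccLimit l → D l = ⋂ α ∈ Set.Iio l, D α

/-- The choices made in the definition of the poset: every `U x` is an open set that meets the
scattering level of `x` exactly in `{x}`, and `𝒱` is a point-countable open refinement of the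
cover `{U x : x ∈ X}`. -/
def ValidChoice (X : Type u) [TopologicalSpace X] (D : Ordinal.{0} → Set X) (U : X → Set X)
    (𝒱 : Set (Set X)) : Prop :=
  (∀ x, IsOpen (U x)) ∧ (∀ x α, x ∈ D α \ D (α + 1) → U x ∩ (D α \ D (α + 1)) = {x}) ∧
  (∀ V ∈ 𝒱, IsOpen V ∧ ∃ x, V ⊆ U x) ∧ ⋃₀ 𝒱 = Set.univ ∧ ∀ x, {V ∈ 𝒱 | x ∈ V}.Countable

/-- The poset `P` of all finite `p ⊆ X` with `V_x ∩ p = {x}` for all `x ∈ p`, where `V_x` is the
union of the members of `𝒱` containing `x`. -/
def P {X : Type u} (𝒱 : Set (Set X)) : Set (Finset X) :=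
  {p | ∀ x ∈ p, (⋃₀ {V ∈ 𝒱 | x ∈ V}) ∩ (p : Set X) = {x}}

/-- The countable ordinals. -/
abbrev W : Type 1 := Set.Iio (ω₁ : Ordinal.{0})

/-- The nodes: nonempty finite sequences of pairs of countable ordinals, with increasing first
coordinates. -/
def T : Type 1 :=
  {p : (W × W) × List (W × W) // (p.1 :: p.2).Pairwise fun a b => a.1 < b.1}

/-- The list of a node. -/
def T.list (x : T) : List (W × W) := x.1.1 :: x.1.2

/-- The rank of a node: the first ordinal in the list. -/
def T.rk (x : T) : Ordinal.{0} := x.1.1.1.1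

lemma T.rk_lt (x : T) : x.rk < ω₁ := x.1.1.1.2

lemma T.list_injective : Function.Injective T.list := by
  intro x y h
  have h1 := List.cons.inj h
  exact Subtype.ext (Prod.ext h1.1 h1.2)

/-- The tree order. -/
def T.le (s x : T) : Prop := s.list <:+ x.list

lemma T.le_refl (x : T) : T.le x x := List.suffix_refl _

lemma T.finite_le (x : T) : {s | T.le s x}.Finite := by
  have h : {s | T.le s x} ⊆ T.list ⁻¹' {l | l ∈ x.list.tails} := by
    intro s hs
    exact (List.mem_tails _ _).2 hs
  exact (Set.Finite.preimage T.list_injective.injOn (List.finite_toSet _)).subset h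

lemma T.rk_lt_of_le {s x : T} (h : T.le s x) (hne : s ≠ x) : x.rk < s.rk := by
  obtain ⟨l, hl⟩ := h
  cases l with
  | nil => exact absurd (T.list_injective (by simpa using hl)) hne
  | cons a l =>
    have h1 : x.list.Pairwise fun a b => a.1 < b.1 := x.2
    rw [← hl, List.cons_append, List.pairwise_cons] at h1
    have h2 : a = x.1.1 := by
      have : a :: (l ++ s.list) = x.1.1 :: x.1.2 := hl
      exact (List.cons.inj this).1
    have h3 := h1.1 s.1.1 (by simp [T.list])
    rw [h2] at h3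
    exact h3

lemma T.le_antisymm' {s x : T} (h : T.le s x) (hr : s.rk ≤ x.rk) : s = x := by
  by_contra hne
  exact absurd (T.rk_lt_of_le h hne) (not_lt.2 hr)

/-- A child of the node `x`. -/
def T.child (x : T) (a : W) (ha : a.1 < x.rk) (ξ : W) : T :=
  ⟨((a, ξ), x.list), by
    have h1 : x.list.Pairwise fun a b => a.1 < b.1 := x.2
    refine List.pairwise_cons.2 ⟨?_, h1⟩
    intro b hb
    rcases List.mem_cons.1 hb with h | h
    · rw [h]; exact ha
    · exact lt_trans (show a < x.1.1.1 from ha) ((List.pairwise_cons.1 h1).1 b h)⟩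

lemma T.child_list (x : T) (a : W) (ha : a.1 < x.rk) (ξ : W) :
    (x.child a ha ξ).list = (a, ξ) :: x.list := rfl

lemma T.child_rk (x : T) (a : W) (ha : a.1 < x.rk) (ξ : W) : (x.child a ha ξ).rk = a.1 := rfl

lemma T.child_injective (x : T) (a : W) (ha : a.1 < x.rk) :
    Function.Injective (x.child a ha) := by
  intro ξ η h
  have := congrArg T.list h
  rw [T.child_list, T.child_list] at this
  exact (Prod.mk.inj (List.cons.inj this).1).2

lemma T.le_child_iff (s x : T) (a : W) (ha : a.1 < x.rk) (ξ : W) :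
    T.le s (x.child a ha ξ) ↔ s = x.child a ha ξ ∨ T.le s x := by
  unfold T.le
  rw [T.child_list, List.suffix_cons_iff]
  constructor
  · rintro (h | h)
    · left
      exact T.list_injective (by rw [h, T.child_list])
    · exact Or.inr h
  · rintro (h | h)
    · left
      rw [h, T.child_list]
    · exact Or.inr h

open Classical in
/-- The characteristic function of the set of nodes below `x`. -/
noncomputable def e0 (x : T) : T → ℝ := fun s => if T.le s x then 1 else 0

noncomputable instance : TopologicalSpace T := TopologicalSpace.induced e0 inferInstance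

lemma e0_injective : Function.Injective e0 := by
  intro x y h
  have h1 : T.le x y := by
    by_contra hcon
    have := congrFun h x
    simp [e0, T.le_refl, hcon] at this
  have h2 : T.le y x := by
    by_contra hcon
    have := congrFun h y
    simp [e0, T.le_refl, hcon] at this
  exact T.list_injective (h1.eq_of_length (le_antisymm h1.length_le h2.length_le))

lemma isEmbedding_e0 : IsEmbedding e0 := ⟨⟨rfl⟩, e0_injective⟩

/-- Cones are open. -/
lemma isOpen_cone (s : T) : IsOpen {x | T.le s x} := by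
  have h1 : IsOpen {f : T → ℝ | (1 / 2 : ℝ) < f s} := isOpen_lt continuous_const
    (continuous_apply s)
  have h2 : {x | T.le s x} = e0 ⁻¹' {f : T → ℝ | (1 / 2 : ℝ) < f s} := by
    ext x
    by_cases h : T.le s x
    · simp [e0, h]; norm_num
    · simp [e0, h]
  rw [h2]
  exact h1.preimage isEmbedding_e0.continuous

/-- Neighbourhoods are determined by finitely many cones. -/
lemma exists_finite_of_isOpen {O : Set T} (hO : IsOpen O) {x : T} (hx : x ∈ O) :
    ∃ F : Finset T, ∀ y, (∀ s ∈ F, (T.le s y ↔ T.le s x)) → y ∈ O := by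
  obtain ⟨O', hO', rfl⟩ := isEmbedding_e0.isInducing.isOpen_iff.1 hO
  have h1 : O' ∈ 𝓝 (e0 x) := hO'.mem_nhds hx
  rw [nhds_pi, Filter.mem_pi] at h1
  obtain ⟨I, hI, t, ht, hIt⟩ := h1
  refine ⟨hI.toFinset, fun y hy => hIt fun s hs => ?_⟩
  have h2 : e0 y s = e0 x s := by
    have := hy s (hI.mem_toFinset.2 hs)
    unfold e0
    by_cases h : T.le s x
    · rw [if_pos h, if_pos (this.2 h)]
    · rw [if_neg h, if_neg fun h' => h (this.1 h')]
  rw [h2]
  exact mem_of_mem_nhds (ht s)

/-! ### The space is Eberlein-Grothendieck -/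

/-- `T` with the discrete topology. -/
def Disc : Type 1 := T

instance : TopologicalSpace Disc := ⊥

instance : DiscreteTopology Disc := ⟨rfl⟩

/-- The embedding into `C_p` of the one-point compactification of the discrete space `T`. -/
noncomputable def e1 (x : T) : OnePoint Disc → ℝ
  | none => 0
  | some s => e0 x s

lemma continuous_e1 (x : T) : Continuous (e1 x) := by
  rw [continuous_iff_continuousAt]
  intro p
  induction p using OnePoint.rec with
  | infty =>
    rw [OnePoint.continuousAt_infty']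
    have h1 : ((fun s : Disc => e1 x (s : OnePoint Disc)) ⁻¹' {0})ᶜ.Finite := by
      refine (T.finite_le x).subset ?_
      intro s hs
      by_contra hcon
      apply hs
      show e0 x s = 0
      have : ¬ T.le s x := hcon
      simp [e0, this]
    have h2 : (fun s : Disc => e1 x (s : OnePoint Disc)) ⁻¹' {0} ∈ coclosedCompact Disc := by
      rw [mem_coclosedCompact_iff]
      rw [(isClosed_discrete _).closure_eq]
      exact h1.isCompact
    have h3 : (e1 x ∘ ((↑) : Disc → OnePoint Disc)) =ᶠ[coclosedCompact Disc] fun _ => (0 : ℝ) := by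
      filter_upwards [h2] with s hs
      exact hs
    exact tendsto_const_nhds.congr' h3.symm
  | coe s =>
    rw [OnePoint.continuousAt_coe]
    exact continuous_of_discreteTopology.continuousAt

lemma isEmbedding_e1 : IsEmbedding e1 := by
  have hc : Continuous e1 := by
    refine continuous_pi fun p => ?_
    induction p using OnePoint.rec with
    | infty => exact continuous_const
    | coe s => exact (continuous_apply s).comp isEmbedding_e0.continuous
  have hr : Continuous fun (f : OnePoint Disc → ℝ) (s : T) => f (OnePoint.some (X := Disc) s) :=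
    continuous_pi fun s => continuous_apply _
  have h1 : IsInducing e1 := IsInducing.of_comp hc hr isEmbedding_e0.isInducing
  refine ⟨h1, fun x y h => e0_injective ?_⟩
  funext s
  exact congrFun h (OnePoint.some (X := Disc) s)

lemma eberleinGrothendieck : EberleinGrothendieck T :=
  ⟨OnePoint Disc, inferInstance, inferInstance, inferInstance, e1, isEmbedding_e1, continuous_e1⟩

instance : T35Space T := by
  have h1 : CompletelyRegularSpace T := isEmbedding_e0.isInducing.completelyRegularSpace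
  have h2 : T0Space T := isEmbedding_e0.t0Space
  exact { }

/-! ### Covering properties -/

lemma metaLindelof_subspace (S : Set T) : MetaLindelof S := by
  intro 𝒪 hO hcov
  have h1 : ∀ y : S, ∃ O ∈ 𝒪, y ∈ O := fun y => by
    have : y ∈ ⋃₀ 𝒪 := by rw [hcov]; exact mem_univ _
    exact this
  choose O hO1 hO2 using h1
  refine ⟨Set.range fun y : S => O y ∩ {z : S | T.le y.1 z.1}, ?_, ?_, ?_⟩
  · rintro _ ⟨y, rfl⟩
    exact ⟨(hO _ (hO1 y)).inter ((isOpen_cone y.1).preimage continuous_subtype_val), O y, hO1 y,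
      inter_subset_left⟩
  · refine eq_univ_of_forall fun y => ?_
    exact ⟨_, ⟨y, rfl⟩, hO2 y, T.le_refl _⟩
  · intro z
    have h2 : ({y : S | T.le y.1 z.1}).Finite := by
      have h3 : ({y : S | T.le y.1 z.1}) = Subtype.val ⁻¹' {s : T | T.le s z.1} := rfl
      rw [h3]
      exact Set.Finite.preimage Subtype.val_injective.injOn (T.finite_le z.1)
    refine (h2.image fun y : S => O y ∩ {z : S | T.le y.1 z.1}).countable.mono ?_
    rintro _ ⟨⟨y, rfl⟩, hz⟩
    exact ⟨y, hz.2, rfl⟩

/-! ### Scatteredness and height -/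

lemma scattered : Scattered T := by
  intro S hS
  -- a point of minimal rank
  obtain ⟨x, hxS, hx⟩ := (wellFounded_lt (α := Ordinal.{0})).has_min (T.rk '' S) (hS.image _)
    |> fun ⟨_, ⟨x, hxS, rfl⟩, h⟩ => (⟨x, hxS, h⟩ : ∃ x ∈ S, ∀ r ∈ T.rk '' S, ¬ r < x.rk)
  refine ⟨x, hxS, {y | T.le x y}, isOpen_cone x, ?_⟩
  ext y
  constructor
  · rintro ⟨hxy, hyS⟩
    exact (T.le_antisymm' hxy (not_lt.1 (hx _ ⟨y, hyS, rfl⟩))).symm
  · rintro rfl
    exact ⟨T.le_refl _, hxS⟩

/-- The derivatives. -/
def D (α : Ordinal.{0}) : Set T := {x | α ≤ x.rk}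

lemma level_eq (α : Ordinal.{0}) : D α \ D (α + 1) = {x | x.rk = α} := by
  ext x
  constructor
  · rintro ⟨h1, h2⟩
    have h3 : ¬ α + 1 ≤ x.rk := h2
    rw [← Order.succ_eq_add_one, Order.succ_le_iff, not_lt] at h3
    exact le_antisymm h3 h1
  · intro h
    have h' : x.rk = α := h
    refine ⟨h'.ge, fun h2 => ?_⟩
    have h3 : α + 1 ≤ x.rk := h2
    rw [h'] at h3
    exact absurd (lt_add_one α) (not_lt.2 h3)

/-- The ordinal `0` as a countable ordinal. -/
def wzero : W := ⟨0, omega_pos 1⟩

lemma one_lt_omega_one : (1 : Ordinal.{0}) < ω₁ := one_lt_omega0.trans omega0_lt_omega_one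

lemma uncountable_W : ¬ Countable W := by
  intro h
  have h1 : Cardinal.mk W ≤ Cardinal.aleph0 := Cardinal.mk_le_aleph0_iff.2 h
  rw [Cardinal.mk_Iio_ordinal, Cardinal.lift_le_aleph0] at h1
  have h2 : (ω₁ : Ordinal.{0}).card = Cardinal.aleph 1 := by
    rw [← Cardinal.ord_aleph, Cardinal.card_ord]
  rw [h2] at h1
  exact absurd h1 (not_le.2 (by rw [← Cardinal.aleph_zero]; exact Cardinal.aleph_lt_aleph.2 zero_lt_one))

lemma infinite_W : Infinite W := by
  by_contra h
  rw [not_infinite_iff_finite] at h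
  exact uncountable_W inferInstance

/-- Avoiding a finite set by a child. -/
lemma exists_child (x : T) (a : W) (ha : a.1 < x.rk) (F : Finset T) :
    ∃ ξ, x.child a ha ξ ∉ F := by
  by_contra hcon
  push Not at hcon
  have := infinite_W
  exact Set.infinite_univ (α := W) ((F.finite_toSet.preimage
    (x.child_injective a ha).injOn).subset fun ξ _ => hcon ξ)

lemma mem_of_child {x : T} {O : Set T} {F : Finset T}
    (hF : ∀ y, (∀ s ∈ F, (T.le s y ↔ T.le s x)) → y ∈ O) (a : W) (ha : a.1 < x.rk) (ξ : W)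
    (h : x.child a ha ξ ∉ F) : x.child a ha ξ ∈ O := by
  refine hF _ fun s hs => ?_
  rw [T.le_child_iff]
  constructor
  · rintro (h' | h')
    · exact absurd (h' ▸ hs) h
    · exact h'
  · exact Or.inr

lemma isCBSequence : IsCBSequence T D := by
  refine ⟨?_, ?_, ?_⟩
  · exact eq_univ_of_forall fun x => show (0 : Ordinal.{0}) ≤ x.rk from zero_le
  · intro α
    ext x
    constructor
    · intro h
      have h' : α < x.rk := Order.succ_le_iff.1 h
      refine ⟨h'.le, ?_⟩
      rintro ⟨U, hU, hUx⟩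
      have hxU : x ∈ U := by
        have : x ∈ U ∩ D α := by rw [hUx]; rfl
        exact this.1
      obtain ⟨F, hF⟩ := exists_finite_of_isOpen hU hxU
      let a : W := ⟨α, h'.trans x.rk_lt⟩
      obtain ⟨ξ, hξ⟩ := exists_child x a h' F
      have h1 : x.child a h' ξ ∈ U ∩ D α := ⟨mem_of_child hF a h' ξ hξ, show α ≤ _ from le_rfl⟩
      rw [hUx] at h1
      have h2 : (x.child a h' ξ).rk = x.rk := congrArg T.rk h1
      rw [T.child_rk] at h2
      exact h'.ne h2
    · rintro ⟨h1, h2⟩
      have h1' : α ≤ x.rk := h1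
      refine Order.succ_le_iff.2 (lt_of_le_of_ne h1' fun h3 => h2 ?_)
      refine ⟨{y | T.le x y}, isOpen_cone x, ?_⟩
      ext y
      constructor
      · rintro ⟨hxy, hy⟩
        exact (T.le_antisymm' hxy (by rw [← h3]; exact hy)).symm
      · rintro rfl
        exact ⟨T.le_refl _, h1⟩
  · intro l hl
    ext x
    simp only [mem_iInter]
    constructor
    · intro h α hα
      have h' : l ≤ x.rk := h
      exact le_trans (le_of_lt hα) h'
    · intro h
      by_contra hcon
      have h1 : x.rk < l := not_le.1 hcon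
      have h2 := h (succ x.rk) (hl.succ_lt h1)
      exact absurd (lt_succ x.rk) (not_lt.2 h2)

lemma D_omega_one : D ω₁ = ∅ := by
  ext x
  constructor
  · intro h
    exact absurd x.rk_lt (not_lt.2 h)
  · intro h
    exact absurd h (notMem_empty _)

/-- A node with one entry. -/
def node (a ξ : W) : T := ⟨((a, ξ), []), by simp⟩

lemma D_nonempty (α : Ordinal.{0}) (hα : α < ω₁) : (D α).Nonempty :=
  ⟨node ⟨α, hα⟩ wzero, show α ≤ _ from le_rfl⟩

lemma mk_W : Cardinal.mk W = Cardinal.aleph 1 := by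
  rw [Cardinal.mk_Iio_ordinal]
  have h2 : (ω₁ : Ordinal.{0}).card = Cardinal.aleph 1 := by
    rw [← Cardinal.ord_aleph, Cardinal.card_ord]
  rw [h2, Cardinal.lift_aleph, Ordinal.lift_one]

lemma mk_T : Cardinal.mk T = Cardinal.aleph 1 := by
  have := infinite_W
  apply le_antisymm
  · calc Cardinal.mk T ≤ Cardinal.mk (List (W × W)) := Cardinal.mk_le_of_injective T.list_injective
      _ = Cardinal.mk (W × W) := Cardinal.mk_list_eq_mk _
      _ = Cardinal.mk W := by
        rw [Cardinal.mk_prod, Cardinal.lift_id, Cardinal.mul_eq_self]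
        rw [mk_W]
        exact Cardinal.aleph0_le_aleph 1
      _ = Cardinal.aleph 1 := mk_W
  · rw [← mk_W]
    refine Cardinal.mk_le_of_injective (f := fun ξ => node wzero ξ) ?_
    intro ξ η h
    have h1 := congrArg (fun x : T => x.1.1) h
    exact (Prod.mk.inj h1).2

/-! ### The result -/

lemma exists_validChoice : ∃ U 𝒱, ValidChoice T D U 𝒱 := by
  refine ⟨fun x => {y | T.le x y}, Set.range fun x => {y | T.le x y}, isOpen_cone, ?_, ?_, ?_, ?_⟩
  · intro x α hx
    rw [level_eq] at hx ⊢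
    have hx' : x.rk = α := hx
    ext y
    constructor
    · rintro ⟨hxy, hy⟩
      have hy' : y.rk = α := hy
      exact (T.le_antisymm' hxy (by rw [hx', hy'])).symm
    · rintro rfl
      exact ⟨T.le_refl _, hx⟩
  · rintro _ ⟨x, rfl⟩
    exact ⟨isOpen_cone x, x, Subset.rfl⟩
  · exact eq_univ_of_forall fun x => ⟨_, ⟨x, rfl⟩, T.le_refl x⟩
  · intro x
    refine ((T.finite_le x).image fun s => {y | T.le s y}).countable.mono ?_
    rintro _ ⟨⟨s, rfl⟩, hx⟩
    exact ⟨s, hx, rfl⟩

lemma not_ccc {U : T → Set T} {𝒱 : Set (Set T)} (h : ValidChoice T D U 𝒱) :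
    ∃ 𝒜 ⊆ P 𝒱, ¬ 𝒜.Countable ∧
      ∀ p ∈ 𝒜, ∀ q ∈ 𝒜, p ≠ q → ¬ ∃ r ∈ P 𝒱, p ⊆ r ∧ q ⊆ r := by
  classical
  obtain ⟨-, -, hV1, hV2, -⟩ := h
  let x : T := node ⟨1, one_lt_omega_one⟩ wzero
  have hx : wzero.1 < x.rk := zero_lt_one
  have hxV : x ∈ ⋃₀ 𝒱 := by rw [hV2]; exact mem_univ _
  obtain ⟨V, hV, hxV⟩ := hxV
  obtain ⟨F, hF⟩ := exists_finite_of_isOpen (hV1 V hV).1 hxV
  let y : W → T := x.child wzero hx
  have hyinj : Function.Injective y := x.child_injective wzero hx
  have hyV : ∀ ξ, y ξ ∉ F → y ξ ∈ V := fun ξ hξ => mem_of_child hF wzero hx ξ hξ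
  refine ⟨(fun ξ => ({y ξ} : Finset T)) '' {ξ | y ξ ∉ F}, ?_, ?_, ?_⟩
  · rintro _ ⟨ξ, hξ, rfl⟩
    intro z hz
    have hz' : z = y ξ := Finset.mem_singleton.1 hz
    subst hz'
    rw [Finset.coe_singleton]
    ext w
    constructor
    · rintro ⟨-, hw⟩
      exact hw
    · rintro rfl
      exact ⟨⟨V, ⟨hV, hyV ξ hξ⟩, hyV ξ hξ⟩, rfl⟩
  · intro hc
    have h1 : ({ξ | y ξ ∉ F}).Countable := by
      refine Set.countable_of_injective_of_countable_image (f := fun ξ => ({y ξ} : Finset T))
        ?_ hc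
      intro ξ _ η _ hξη
      exact hyinj (Finset.singleton_injective hξη)
    have h2 : ({ξ | y ξ ∈ F}).Finite := F.finite_toSet.preimage hyinj.injOn
    have h3 : (Set.univ : Set W).Countable := by
      refine (h1.union h2.countable).mono fun ξ _ => ?_
      by_cases h : y ξ ∈ F
      · exact Or.inr h
      · exact Or.inl h
    exact uncountable_W (Set.countable_univ_iff.1 h3)
  · rintro _ ⟨ξ, hξ, rfl⟩ _ ⟨η, hη, rfl⟩ hne ⟨r, hr, h1, h2⟩
    have h1' : y ξ ∈ r := h1 (Finset.mem_singleton_self _)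
    have h2' : y η ∈ r := h2 (Finset.mem_singleton_self _)
    have h3 : y η ∈ (⋃₀ {V ∈ 𝒱 | y ξ ∈ V}) ∩ (r : Set T) :=
      ⟨⟨V, ⟨hV, hyV ξ hξ⟩, hyV η hη⟩, h2'⟩
    rw [hr _ h1'] at h3
    have h4 : y η = y ξ := h3
    exact hne (by show ({y ξ} : Finset T) = {y η}; rw [h4])

/-- **There is a Tychonoff, Eberlein-Grothendieck, hereditarily meta-Lindelöf, scattered space of
height and cardinality `ω₁` such that, for every choice of the sets `U x` and of the point-countable
open refinement `𝒱` (and such choices exist), the poset `P` contains an uncountable family of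
pairwise incompatible conditions.** -/
theorem result : ∃ (X : Type 1) (_ : TopologicalSpace X), T35Space X ∧ EberleinGrothendieck X ∧
    (∀ S : Set X, MetaLindelof S) ∧ Scattered X ∧ Cardinal.mk X = Cardinal.aleph 1 ∧
    ∃ D : Ordinal.{0} → Set X, IsCBSequence X D ∧ D ω₁ = ∅ ∧ (∀ α < ω₁, (D α).Nonempty) ∧
      (∃ U 𝒱, ValidChoice X D U 𝒱) ∧
      ∀ U 𝒱, ValidChoice X D U 𝒱 → ∃ 𝒜 ⊆ P 𝒱, ¬ 𝒜.Countable ∧
        ∀ p ∈ 𝒜, ∀ q ∈ 𝒜, p ≠ q → ¬ ∃ r ∈ P 𝒱, p ⊆ r ∧ q ⊆ r :=
  ⟨T, inferInstance, inferInstance, eberleinGrothendieck, metaLindelof_subspace, scattered, mk_T,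
    D, isCBSequence, D_omega_one, D_nonempty, exists_validChoice, fun _ _ h => not_ccc h⟩

end Pool.Agent.Results.MP_8301b4_gt.NeverCcc
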